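import Pool.Agent.Q282.NA.Lin

/-!
# Boxes of integers of number fields
-/

set_option autoImplicit false
set_option linter.unusedSectionVars false

namespace Q282NA

open Finset MvPolynomial NumberField
open Q282RH (ex tbox)
open Q282GH (zeros Through)
open Q282GP (TT kun coh tt)

lemma finsum_sub {α M : Type} [AddCommMonoid M] [Finite α] (s : Finset α) (hs : ∀ x, x ∈ s) (P : α → Prop) [DecidablePred P] (g : α → M) :
    ∑ᶠ x : {x // P x}, g x.1 = ∑ x ∈ s, if P x then g x else 0 := by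
  classical
  have : Fintype {x // P x} := Fintype.ofFinite _
  rw [finsum_eq_sum_of_fintype, ← sum_filter]
  exact (Finset.sum_subtype (s.filter P) (fun x => by simp [hs]) g).symm

section

variable {K : Type} [Field K] [NumberField K] {κ : Type} [Fintype κ] [DecidableEq κ] (ω : Module.Basis κ ℤ (𝓞 K)) {S : Type} [Fintype S] [DecidableEq S]

lemma repr_dec (y : S × κ → ℤ) (s : S) (k : κ) : ω.repr (dec ω y s) k = y (s, k) := by
  unfold dec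
  have h1 := ω.repr_sum_self (fun k => y (s, k))
  exact congrFun h1 k

lemma dec_repr (c : S → 𝓞 K) : dec ω (fun x => ω.repr (c x.1) x.2) = c := by
  funext s
  unfold dec
  exact ω.sum_repr (c s)

/-- the families of integers with coordinates in given intervals -/
def Box (m : S × κ → ℤ) (L : S × κ → ℕ) : Set (S → 𝓞 K) := {c | ∀ s k, m (s, k) ≤ ω.repr (c s) k ∧ ω.repr (c s) k < m (s, k) + L (s, k)}

lemma ncard_box (m : S × κ → ℤ) (L : S × κ → ℕ) (Q : (S → 𝓞 K) → Prop) :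
    Set.ncard {c ∈ Box ω m L | Q c} = Set.ncard {y ∈ (tbox m L : Set (S × κ → ℤ)) | Q (dec ω y)} := by
  have hinj : Function.Injective (dec ω : (S × κ → ℤ) → S → 𝓞 K) := by
    intro y y' h
    funext x
    rw [← repr_dec ω y x.1 x.2, ← repr_dec ω y' x.1 x.2, h]
  rw [← Set.ncard_image_of_injective _ hinj]
  congr 1
  ext c
  constructor
  · rintro ⟨h1, h2⟩
    refine ⟨fun x => ω.repr (c x.1) x.2, ⟨?_, ?_⟩, dec_repr ω c⟩
    · rw [mem_coe]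
      unfold tbox
      rw [Fintype.mem_piFinset]
      intro x
      rw [mem_Ico]
      exact h1 x.1 x.2
    · rw [dec_repr]
      exact h2
  · rintro ⟨y, ⟨hy, hy2⟩, rfl⟩
    refine ⟨?_, hy2⟩
    intro s k
    rw [repr_dec]
    rw [mem_coe] at hy
    unfold tbox at hy
    rw [Fintype.mem_piFinset] at hy
    have := hy (s, k)
    rw [mem_Ico] at this
    exact this

lemma ncard_box' (m : S × κ → ℤ) (L : S × κ → ℕ) : (Set.ncard (Box ω m L) : ℝ) = ∏ x, (L x : ℝ) := by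
  have h1 := ncard_box ω m L (fun _ => True)
  simp only [and_true, Set.ofPred_mem_eq] at h1
  have h2 : {c | c ∈ Box ω m L} = Box ω m L := rfl
  rw [h1]
  have h3 : {y : S × κ → ℤ | y ∈ (tbox m L : Set (S × κ → ℤ))} = (tbox m L : Set (S × κ → ℤ)) := rfl
  rw [Set.ncard_coe_finset]
  unfold tbox
  rw [Fintype.card_piFinset]
  push_cast
  refine prod_congr rfl fun x _ => ?_
  rw [Int.card_Ico]
  simp

end

section

variable {K : Type} [Field K] [NumberField K] {κ : Type} [Fintype κ] (ω : Module.Basis κ ℤ (𝓞 K))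
  {A : Type} [Fintype A] {ι : A → Type} [∀ a, Fintype (ι a)] {n : ℕ}

/-- the trace formula -/
def TraceFormula (w : ℕ → ℕ) (D r : ℕ) (E : Set (MvPolynomial (Fin (n + 1)) (𝓞 K)))
    (f : (a : A) → ι a → MvPolynomial (Fin (n + 1)) (𝓞 K)) (Δ : MvPolynomial (Σ a, ι a) (𝓞 K)) (c : (Σ a, ι a) → 𝓞 K)
    (α : (p : ℕ) → (𝓞 K →+* ZMod p) → Multiset ℂ) : Prop :=
  ∀ (p : ℕ) [Fact p.Prime] (ψ : 𝓞 K →+* ZMod p), ψ (eval c Δ) ≠ 0 →
    (zeros ψ (member E f c) : ℂ) = ((tt w D r (p : ℝ) : ℝ) : ℂ) + (-1) ^ D * (α p ψ).sum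

/-- the sum of the traces at the primes above `p` -/
noncomputable def traceSum (w : ℕ → ℕ) (D r ν i : ℕ) (Δ : MvPolynomial (Σ a, ι a) (𝓞 K)) (c : (Σ a, ι a) → 𝓞 K)
    (α : (p : ℕ) → (𝓞 K →+* ZMod p) → Multiset ℂ) (p : ℕ) : ℂ :=
  ∑ᶠ ψ : {ψ : 𝓞 K →+* ZMod p // ψ (eval c Δ) ≠ 0}, (kun (coh w D r p (α p ψ.1)) ν (2 * i)).sum

/-- the predicted sum of the traces at the primes above `p` -/
noncomputable def predicted (w : ℕ → ℕ) (D r ν i : ℕ) (Δ : MvPolynomial (Σ a, ι a) (𝓞 K)) (z : (p : ℕ) → (𝓞 K →+* ZMod p) → ℕ) (p : ℕ) : ℝ :=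
  ∑ᶠ ψ : {ψ : 𝓞 K →+* ZMod p // map ψ Δ ≠ 0}, ∑ l ∈ range (ν + 1), (TT w D r ν i l : ℝ) * (z p ψ.1 : ℝ) ^ l

/-- the sums over the primes are near to the predicted ones -/
def Near (w : ℕ → ℕ) (D r ν i : ℕ) (E : Set (MvPolynomial (Fin (n + 1)) (𝓞 K)))
    (f : (a : A) → ι a → MvPolynomial (Fin (n + 1)) (𝓞 K)) (Δ : MvPolynomial (Σ a, ι a) (𝓞 K)) (z : (p : ℕ) → (𝓞 K →+* ZMod p) → ℕ)
    (K' : ℝ) (T : ℕ) (c : (Σ a, ι a) → 𝓞 K) : Prop :=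
  ∀ α : (p : ℕ) → (𝓞 K →+* ZMod p) → Multiset ℂ, TraceFormula w D r E f Δ c α → ∀ T' : ℕ, 2 ≤ T' → T' ≤ T →
    ‖∑ p ∈ Nat.primesLE T', (Real.log p : ℂ) * (traceSum w D r ν i Δ c α p / (p : ℂ) ^ i) -
      (∑ p ∈ Nat.primesLE T', Real.log p * predicted w D r ν i Δ z p : ℝ)‖ ≤ K' * (Real.sqrt T' * (Real.log T') ^ 3)

variable [DecidableEq A] [∀ a, DecidableEq (ι a)] [DecidableEq κ]

open Classical in
lemma traceSum_eq (w : ℕ → ℕ) (D r ν i : ℕ) (E : Set (MvPolynomial (Fin (n + 1)) (𝓞 K)))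
    (f : (a : A) → ι a → MvPolynomial (Fin (n + 1)) (𝓞 K)) (Δ : MvPolynomial (Σ a, ι a) (𝓞 K)) (c : (Σ a, ι a) → 𝓞 K)
    (α : (p : ℕ) → (𝓞 K →+* ZMod p) → Multiset ℂ) (hα : TraceFormula w D r E f Δ c α) (p : ℕ) (hp : p.Prime) :
    traceSum w D r ν i Δ c α p / (p : ℂ) ^ i = (YY w D r ν i E f Δ p c : ℂ) := by
  have : Fact p.Prime := ⟨hp⟩
  have hp0 : (p : ℂ) ^ i ≠ 0 := pow_ne_zero _ (by exact_mod_cast hp.ne_zero)
  have : Finite (𝓞 K →+* ZMod p) := (Q282GH.card_homs K (ZMod p)).1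
  unfold traceSum YY
  rw [finsum_sub (hs K p) mem_hs (fun ψ => ψ (eval c Δ) ≠ 0) (fun ψ => (kun (coh w D r p (α p ψ)) ν (2 * i)).sum), dif_pos hp,
    div_eq_iff hp0, Complex.ofReal_sum, sum_mul]
  refine sum_congr rfl fun ψ _ => ?_
  split_ifs with hg
  · rw [trace_member w D r ν i E f Δ c ψ p (Nat.card_zmod p) hp.pos hg (α p ψ) (hα p ψ hg)]
    push_cast
    ring
  · rw [XX_bad w D r ν i E f Δ c ψ (by by_contra h0; exact hg h0)]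
    simp

open Classical in
lemma predicted_eq (w : ℕ → ℕ) (D r ν i : ℕ) (Δ : MvPolynomial (Σ a, ι a) (𝓞 K)) (z : (p : ℕ) → (𝓞 K →+* ZMod p) → ℕ) (p : ℕ) (hp : p.Prime) :
    predicted w D r ν i Δ z p = MM w D r ν i Δ z p := by
  have : Fact p.Prime := ⟨hp⟩
  have : Finite (𝓞 K →+* ZMod p) := (Q282GH.card_homs K (ZMod p)).1
  unfold predicted MM
  rw [finsum_sub (hs K p) mem_hs (fun ψ => map ψ Δ ≠ 0) (fun ψ => ∑ l ∈ range (ν + 1), (TT w D r ν i l : ℝ) * (z p ψ : ℝ) ^ l), dif_pos hp]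
  refine sum_congr rfl fun ψ _ => ?_
  by_cases h : map ψ Δ = 0
  · rw [if_pos h, if_neg (not_not.2 h)]
  · rw [if_neg h, if_pos h]

lemma not_near (w : ℕ → ℕ) (D r ν i : ℕ) (E : Set (MvPolynomial (Fin (n + 1)) (𝓞 K)))
    (f : (a : A) → ι a → MvPolynomial (Fin (n + 1)) (𝓞 K)) (Δ : MvPolynomial (Σ a, ι a) (𝓞 K)) (z : (p : ℕ) → (𝓞 K →+* ZMod p) → ℕ)
    (K' : ℝ) (T : ℕ) (c : (Σ a, ι a) → 𝓞 K) (h : ¬ Near w D r ν i E f Δ z K' T c) :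
    ∃ T' : ℕ, 2 ≤ T' ∧ T' ≤ T ∧ K' * (Real.sqrt T' * (Real.log T') ^ 3) <
        |∑ p ∈ Nat.primesLE T', Real.log p * (YY w D r ν i E f Δ p c - MM w D r ν i Δ z p)| := by
  unfold Near at h
  push Not at h
  obtain ⟨α, hα, T', h1, h2, h3⟩ := h
  refine ⟨T', h1, h2, ?_⟩
  have h4 : ∑ p ∈ Nat.primesLE T', (Real.log p : ℂ) * (traceSum w D r ν i Δ c α p / (p : ℂ) ^ i) -
      (∑ p ∈ Nat.primesLE T', Real.log p * predicted w D r ν i Δ z p : ℝ) =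
      ((∑ p ∈ Nat.primesLE T', Real.log p * (YY w D r ν i E f Δ p c - MM w D r ν i Δ z p) : ℝ) : ℂ) := by
    rw [Complex.ofReal_sum, Complex.ofReal_sum, ← sum_sub_distrib]
    refine sum_congr rfl fun p hp => ?_
    have hprime := Nat.prime_of_mem_primesLE hp
    rw [traceSum_eq w D r ν i E f Δ c α hα p hprime, predicted_eq w D r ν i Δ z p hprime]
    push_cast
    ring
  rw [h4, Complex.norm_real, Real.norm_eq_abs] at h3
  exact h3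

/-- for all but a proportion `K₁ / K' ^ 2` of the members of the boxes -/
def AlmostAll {S : Type} (R : ℝ → ℕ → (S → 𝓞 K) → Prop) : Prop :=
  ∃ K₁ : ℝ, 0 < K₁ ∧ ∀ K' : ℝ, K₁ ≤ K' → ∀ (T : ℕ) (m : S × κ → ℤ) (L : S × κ → ℕ), (∀ x, K₁ * (T + 1) ^ 3 ≤ L x) →
    (Set.ncard {c ∈ Box ω m L | ¬ R K' T c} : ℝ) ≤ K₁ / K' ^ 2 * Set.ncard (Box ω m L)

end

section

variable {K : Type} [Field K] [NumberField K] {κ : Type} [Fintype κ] (ω : Module.Basis κ ℤ (𝓞 K))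
  {A : Type} [Fintype A] {ι : A → Type} [∀ a, Fintype (ι a)] {n : ℕ}

theorem almost (D : ℕ) (hD : 1 ≤ D) (r : ℕ) (hr : 1 ≤ r) (hA : Fintype.card A = r) (w : ℕ → ℕ) (hw : w (D + r) = 1) (C₀ C₁ : ℝ)
    (ν : ℕ) (hν : 1 ≤ ν) (i : ℕ) {J : Type} {h : J → MvPolynomial (Fin (n + 1)) (𝓞 K)} {e : J → ℕ} {d : A → ℕ}
    {f : (a : A) → ι a → MvPolynomial (Fin (n + 1)) (𝓞 K)} (hh : ∀ j, (h j).IsHomogeneous (e j))
    (hd : ∀ j a, e j + 2 * ν ≤ d a + 1) (hf : ∀ a, Through h (d a) (f a)) (E : Set (MvPolynomial (Fin (n + 1)) (𝓞 K)))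
    (Δ : MvPolynomial (Σ a, ι a) (𝓞 K)) (z : (p : ℕ) → (𝓞 K →+* ZMod p) → ℕ)
    (hW : ∀ (p : ℕ) [Fact p.Prime] (ψ : 𝓞 K →+* ZMod p), map ψ Δ ≠ 0 →
      |(zeros ψ E : ℝ) - ∑ j ∈ range (D + r + 1), w j * (p : ℝ) ^ j| ≤ C₀ * Real.sqrt p ^ (2 * r + D - 1))
    (hz : ∀ (p : ℕ) [Fact p.Prime] (ψ : 𝓞 K →+* ZMod p), map ψ Δ ≠ 0 → (z p ψ : ℝ) ≤ C₁)
    (hZ : ∀ (p : ℕ) [Fact p.Prime] (ψ : 𝓞 K →+* ZMod p), map ψ Δ ≠ 0 →
      |(zeros ψ (E ∪ Set.range h) : ℝ) - z p ψ * Real.sqrt p ^ D| ≤ C₁ * Real.sqrt p ^ D / Real.sqrt p) :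
    AlmostAll ω fun K' T c => Near w D r ν i E f Δ z K' T c := by
  classical
  obtain ⟨K₁, h0, h1⟩ := main ω D hD r hr hA w hw C₀ C₁ ν hν i hh hd hf E Δ z hW hz hZ
  refine ⟨K₁, h0, fun K' hK' T m L hL => ?_⟩
  rw [ncard_box, ncard_box']
  obtain ⟨P, hP⟩ : ∃ P : ((Σ a, ι a) × κ → ℤ) → Prop, P = fun y => ¬ Near w D r ν i E f Δ z K' T (dec ω y) := ⟨_, rfl⟩
  have h2 := h1 K' hK' T m L hL P (fun y hy => by
    rw [hP] at hy
    exact not_near w D r ν i E f Δ z K' T _ hy)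
  have h3 : ({y ∈ (tbox m L : Set ((Σ a, ι a) × κ → ℤ)) | ¬ Near w D r ν i E f Δ z K' T (dec ω y)} : Set ((Σ a, ι a) × κ → ℤ)) =
      (((tbox m L).filter P : Finset ((Σ a, ι a) × κ → ℤ)) : Set _) := by
    ext y
    rw [hP]
    simp
  rw [h3, Set.ncard_coe_finset]
  exact h2

theorem almost_lin (D : ℕ) (hD : 1 ≤ D) (r : ℕ) (hr : 1 ≤ r) (hA : Fintype.card A = r)
    (ν : ℕ) (hν : 1 ≤ ν) (i : ℕ) {d : A → ℕ} {s m' : ℕ} (hm' : 2 * m' ≤ D)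
    (l : Fin s → Fin (D + r - m') → Fin (D + r + 1) → 𝓞 K)
    {f : (a : A) → ι a → MvPolynomial (Fin (D + r + 1)) (𝓞 K)}
    (hd : ∀ a, s + 2 * ν ≤ d a + 1) (hf : ∀ a, Through (pforms l) (d a) (f a))
    (Δ : MvPolynomial (Σ a, ι a) (𝓞 K))
    (hl : ∀ (p : ℕ) [Fact p.Prime] (ψ : 𝓞 K →+* ZMod p), map ψ Δ ≠ 0 → Subspaces ψ l) :
    AlmostAll ω fun K' T c => Near (fun _ => 1) D r ν i ∅ f Δ (fun _ _ => if 2 * m' = D then s else 0) K' T c := by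
  classical
  obtain ⟨K₁, h0, h1⟩ := main_lin ω D hD r hr hA ν hν i hm' l hd hf Δ hl
  refine ⟨K₁, h0, fun K' hK' T m L hL => ?_⟩
  rw [ncard_box, ncard_box']
  exact h1 K' hK' T m L hL (fun y => ¬ Near (fun _ => 1) D r ν i ∅ f Δ (fun _ _ => if 2 * m' = D then s else 0) K' T (dec ω y))
    (fun y hy => not_near (fun _ => 1) D r ν i ∅ f Δ (fun _ _ => if 2 * m' = D then s else 0) K' T _ hy)

end

end Q282NA
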