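import Pool.Agent.Q282.RH.EvenAll

/-!
# Sums over primes for boxes of integer vectors: all truncations at once
-/

set_option autoImplicit false
set_option linter.unusedSectionVars false

namespace Q282NA

open Finset
open Q282RH (ex tbox scale primesLE_eq_Ico sum_inv_sq logSq logSq_le all_scales_box)

/-- **All truncations at once.** -/
theorem scales {ι : Type} [Fintype ι] [DecidableEq ι] (G : (p : ℕ) → (ι → ZMod p) → ℝ) (V : ℝ) (hV : 0 ≤ V)
    (hG : ∀ p, p.Prime → ∀ _ : Fact p.Prime, ex (G p) = 0 ∧ ex (fun a => G p a ^ 2) ≤ V * (Real.log p) ^ 2) (K : ℝ) (hK : 0 < K) (T : ℕ) (c : ι → ℤ)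
    (L : ι → ℕ) (hL : ∀ i, 4 * (Fintype.card ι + 1) * (T + 1 : ℝ) ^ 3 ≤ L i)
    (P : (ι → ℤ) → Prop) [DecidablePred P] (hP : ∀ ν, P ν → ∃ T' : ℕ, 2 ≤ T' ∧ T' ≤ T ∧ K / 2 * (Real.sqrt T' * (Real.log T') ^ 3) <
        |∑ p ∈ Nat.primesLE T', G p (fun i => (ν i : ZMod p))|) :
    (((tbox c L).filter P).card : ℝ) ≤ 1000000 * V / K ^ 2 * ∏ i, (L i : ℝ) := by
  classical
  have hL' : ∀ i, 4 * (Fintype.card ι + 1) * (T : ℝ) ^ 2 * (T + 1) ≤ L i := by
    intro i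
    refine le_trans ?_ (hL i)
    have h1 : (T : ℝ) ^ 2 * (T + 1) ≤ (T + 1) ^ 3 := by
      have : (0 : ℝ) ≤ T := Nat.cast_nonneg T
      nlinarith [sq_nonneg (T : ℝ)]
    calc 4 * ((Fintype.card ι : ℝ) + 1) * (T : ℝ) ^ 2 * (T + 1) = 4 * ((Fintype.card ι : ℝ) + 1) * ((T : ℝ) ^ 2 * (T + 1)) := by ring
      _ ≤ 4 * ((Fintype.card ι : ℝ) + 1) * (T + 1 : ℝ) ^ 3 := mul_le_mul_of_nonneg_left h1 (by positivity)
  have key := all_scales_box (ι := ι) T G (fun p => V * (Real.log p) ^ 2)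
    (fun p => by positivity) (fun p hp _ hF => hG p hp hF) c L hL' (fun _ => 0) (fun j => K / 500 * (Real.sqrt (2 ^ j) * ((j : ℝ) + 1) ^ 3))
    (fun j => by positivity) (T + 1) P (by
      intro ν _ hPν
      obtain ⟨T', h2, hT', hlt⟩ := hP ν hPν
      obtain ⟨j, hj1, hj2, hj3⟩ := scale T' h2
      refine ⟨j, ?_, T' + 1, hj1, ?_⟩
      · have h3 : j < 2 ^ j := Nat.lt_two_pow_self
        have h4 : 2 ^ j ≤ 2 * T := hj2.trans (by omega)
        by_contra hcon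
        push Not at hcon
        have h5 : 2 ^ (T + 2) ≤ 2 ^ j := Nat.pow_le_pow_right (by norm_num) (by omega)
        have h6 : T + 2 < 2 ^ (T + 2) := Nat.lt_two_pow_self
        have h7 : T < 2 ^ T := Nat.lt_two_pow_self
        have h8 : 2 ^ (T + 2) = 4 * 2 ^ T := by rw [pow_add]; ring
        omega
      · rw [← primesLE_eq_Ico T T' hT']
        refine lt_of_le_of_lt ?_ hlt
        obtain ⟨g, hg⟩ : ∃ g : ℝ, g = Real.log T' := ⟨_, rfl⟩
        rw [← hg] at hj3 ⊢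
        have h5 : Real.sqrt (2 ^ j) ≤ 2 * Real.sqrt T' := by
          have h6 : (2 : ℝ) ^ j ≤ 2 ^ 2 * T' := by
            have h7 : ((2 ^ j : ℕ) : ℝ) ≤ ((2 * T' : ℕ) : ℝ) := by exact_mod_cast hj2
            push_cast at h7
            linarith [(Nat.cast_nonneg T' : (0 : ℝ) ≤ T')]
          refine (Real.sqrt_le_sqrt h6).trans (le_of_eq ?_)
          rw [Real.sqrt_mul (by positivity), Real.sqrt_sq (by norm_num)]
        have h6 : ((j : ℝ) + 1) ^ 3 ≤ 125 * g ^ 3 := by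
          calc ((j : ℝ) + 1) ^ 3 ≤ (5 * g) ^ 3 := pow_le_pow_left₀ (by positivity) hj3 3
            _ = 125 * g ^ 3 := by ring
        calc K / 500 * (Real.sqrt (2 ^ j) * ((j : ℝ) + 1) ^ 3) ≤ K / 500 * ((2 * Real.sqrt T') * (125 * g ^ 3)) := by
              refine mul_le_mul_of_nonneg_left ?_ (by positivity)
              exact mul_le_mul h5 h6 (by positivity) (by positivity)
          _ = K / 2 * (Real.sqrt T' * g ^ 3) := by ring)
  refine key.trans ?_
  rw [mul_comm]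
  refine mul_le_mul_of_nonneg_right ?_ (by positivity)
  have h1 : ∀ j ∈ range (T + 1 + 1), 2 * ((j : ℝ) + 1) ^ 2 * (∑ p ∈ (Ico 0 (0 + 2 ^ j)).filter Nat.Prime, V * (Real.log p) ^ 2) /
      (K / 500 * (Real.sqrt (2 ^ j) * ((j : ℝ) + 1) ^ 3)) ^ 2 ≤ 500000 * V / K ^ 2 * (1 / ((j : ℝ) + 1) ^ 2) := by
    intro j _
    have h2 : ∑ p ∈ (Ico 0 (0 + 2 ^ j)).filter Nat.Prime, V * (Real.log p) ^ 2 ≤ V * ((2 : ℝ) ^ j * (j : ℝ)) := by
      have h3 : ∑ p ∈ (Ico 0 (0 + 2 ^ j)).filter Nat.Prime, V * (Real.log p) ^ 2 ≤ V * logSq (2 ^ j) := by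
        rw [← mul_sum]
        refine mul_le_mul_of_nonneg_left ?_ hV
        unfold logSq
        refine sum_le_sum_of_subset_of_nonneg ?_ fun _ _ _ => sq_nonneg _
        intro p hp
        rw [mem_filter, mem_Ico] at hp
        rw [Nat.mem_primesLE]
        exact ⟨by omega, hp.2⟩
      refine h3.trans (mul_le_mul_of_nonneg_left ?_ hV)
      refine (logSq_le _ (Nat.one_le_two_pow)).trans ?_
      push_cast
      rw [Real.log_pow]
      have e1 : Real.log 4 = 2 * Real.log 2 := by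
        rw [show (4 : ℝ) = 2 ^ 2 by norm_num, Real.log_pow]
        push_cast
        ring
      rw [e1]
      have e2 : Real.log 2 ≤ 0.7 := by
        have := Real.log_two_lt_d9
        linarith
      have e3 : 0 < Real.log 2 := Real.log_pos (by norm_num)
      have e4 : Real.log 2 * Real.log 2 ≤ 1 / 2 := by nlinarith
      have e5 : (0 : ℝ) ≤ (2 : ℝ) ^ j * (j : ℝ) := by positivity
      calc 2 * Real.log 2 * ((2 : ℝ) ^ j * ((j : ℝ) * Real.log 2)) = 2 * (Real.log 2 * Real.log 2) * ((2 : ℝ) ^ j * (j : ℝ)) := by ring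
        _ ≤ 1 * ((2 : ℝ) ^ j * (j : ℝ)) := mul_le_mul_of_nonneg_right (by linarith) e5
        _ = _ := one_mul _
    have h3 : (K / 500 * (Real.sqrt (2 ^ j) * ((j : ℝ) + 1) ^ 3)) ^ 2 = K ^ 2 / 250000 * (2 ^ j * ((j : ℝ) + 1) ^ 6) := by
      rw [mul_pow, mul_pow, Real.sq_sqrt (by positivity)]
      ring
    rw [h3, div_le_iff₀ (by positivity)]
    have h4 : (j : ℝ) ≤ ((j : ℝ) + 1) ^ 2 := by
      have : (0 : ℝ) ≤ j := Nat.cast_nonneg j
      nlinarith
    calc 2 * ((j : ℝ) + 1) ^ 2 * ∑ p ∈ (Ico 0 (0 + 2 ^ j)).filter Nat.Prime, V * (Real.log p) ^ 2 ≤ 2 * ((j : ℝ) + 1) ^ 2 * (V * (2 ^ j * ((j : ℝ) + 1) ^ 2)) := by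
          refine mul_le_mul_of_nonneg_left (h2.trans ?_) (by positivity)
          refine mul_le_mul_of_nonneg_left (mul_le_mul_of_nonneg_left h4 (by positivity)) hV
      _ = 500000 * V / K ^ 2 * (1 / ((j : ℝ) + 1) ^ 2) * (K ^ 2 / 250000 * (2 ^ j * ((j : ℝ) + 1) ^ 6)) := by
          field_simp
          ring
  refine (sum_le_sum h1).trans ?_
  rw [← mul_sum]
  have h2 := sum_inv_sq (T + 1)
  calc 500000 * V / K ^ 2 * ∑ j ∈ range (T + 1 + 1), 1 / ((j : ℝ) + 1) ^ 2 ≤ 500000 * V / K ^ 2 * 2 := mul_le_mul_of_nonneg_left h2 (by positivity)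
    _ = 1000000 * V / K ^ 2 := by ring

/-- the sum of `log p / √p` -/
lemma sum_log_sqrt (T : ℕ) : ∑ p ∈ Nat.primesLE T, Real.log p / Real.sqrt p ≤ 2 * (Real.sqrt T * Real.log T) := by
  have h1 : ∀ n : ℕ, ∑ k ∈ Icc 1 n, 1 / Real.sqrt k ≤ 2 * Real.sqrt n := by
    intro n
    induction n with
    | zero => simp
    | succ n ih =>
      rw [sum_Icc_succ_top (by omega)]
      have h2 : 1 / Real.sqrt ((n + 1 : ℕ) : ℝ) ≤ 2 * Real.sqrt ((n + 1 : ℕ) : ℝ) - 2 * Real.sqrt n := by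
        obtain ⟨a, ha⟩ : ∃ a : ℝ, a = Real.sqrt n := ⟨_, rfl⟩
        obtain ⟨b, hb⟩ : ∃ b : ℝ, b = Real.sqrt ((n + 1 : ℕ) : ℝ) := ⟨_, rfl⟩
        rw [← ha, ← hb]
        have ha0 : 0 ≤ a := by rw [ha]; exact Real.sqrt_nonneg _
        have hb0 : 0 < b := by
          rw [hb, Real.sqrt_pos]
          positivity
        have hab : b ^ 2 = a ^ 2 + 1 := by
          rw [ha, hb, Real.sq_sqrt (by positivity), Real.sq_sqrt (by positivity)]
          push_cast
          ring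
        rw [div_le_iff₀ hb0]
        nlinarith [sq_nonneg (b - a)]
      linarith
  have h2 : ∀ p ∈ Nat.primesLE T, Real.log p / Real.sqrt p ≤ Real.log T * (1 / Real.sqrt p) := by
    intro p hp
    rw [Nat.mem_primesLE] at hp
    have h3 : Real.log p ≤ Real.log T := Real.log_le_log (by exact_mod_cast hp.2.pos) (by exact_mod_cast hp.1)
    rw [mul_one_div]
    exact div_le_div_of_nonneg_right h3 (Real.sqrt_nonneg _)
  refine (sum_le_sum h2).trans ?_
  rw [← mul_sum]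
  have h3 : ∑ p ∈ Nat.primesLE T, 1 / Real.sqrt p ≤ ∑ k ∈ Icc 1 T, 1 / Real.sqrt k := by
    refine sum_le_sum_of_subset_of_nonneg ?_ fun _ _ _ => by positivity
    intro p hp
    rw [Nat.mem_primesLE] at hp
    rw [mem_Icc]
    exact ⟨hp.2.one_lt.le, hp.1⟩
  have h4 : 0 ≤ Real.log T := Real.log_natCast_nonneg T
  calc Real.log T * ∑ p ∈ Nat.primesLE T, 1 / Real.sqrt p ≤ Real.log T * (2 * Real.sqrt T) :=
        mul_le_mul_of_nonneg_left (h3.trans (h1 T)) h4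
    _ = _ := by ring

end Q282NA
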