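import Pool.Agent.Q282.NA.Loc
import Pool.Agent.Q282.NA.Scal
import Pool.Agent.Q282.GH.Hom

/-!
# The sums of the traces over the primes of a number field: all truncations at once
-/

set_option autoImplicit false
set_option linter.unusedSectionVars false

namespace Q282NA

open Finset MvPolynomial NumberField
open Q282RH (ex tbox)
open Q282GH (zeros Through)
open Q282GP (av av_add av_sub av_smul av_sum av_const av_nonneg av_mono abs_av av_indep gen fam tt vv oser cc TT mid expand kun coh oc)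

lemma ex_eq_av {ι : Type} [Fintype ι] [DecidableEq ι] {p : ℕ} [hp : Fact p.Prime] (F : (ι → ZMod p) → ℝ) : ex F = av F := by
  unfold ex av
  rw [Fintype.card_fun, ZMod.card]
  push_cast
  rfl

lemma av_var {Γ : Type} [Fintype Γ] [Nonempty Γ] (X : Γ → ℝ) : av (fun u => (X u - av X) ^ 2) ≤ av (fun u => X u ^ 2) := by
  have h1 : (fun u => (X u - av X) ^ 2) = fun u => (X u ^ 2 - 2 * av X * X u) + (av X) ^ 2 := by
    funext u
    ring
  rw [h1, av_add, av_sub, av_smul, av_const]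
  nlinarith [sq_nonneg (av X)]

section

variable (K : Type) [Field K] [NumberField K]

/-- the homomorphisms to the field with `p` elements -/
noncomputable def hs (p : ℕ) [Fact p.Prime] : Finset (𝓞 K →+* ZMod p) := (Set.toFinite (Set.univ : Set (𝓞 K →+* ZMod p))).toFinset

variable {K}

lemma mem_hs {p : ℕ} [Fact p.Prime] (ψ : 𝓞 K →+* ZMod p) : ψ ∈ hs K p := by
  unfold hs
  simp

lemma card_hs (p : ℕ) [Fact p.Prime] : (hs K p).card ≤ Module.finrank ℚ K := by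
  have h := (Q282GH.card_homs K (ZMod p)).2
  unfold hs
  rw [← Set.ncard_eq_toFinset_card, Set.ncard_univ]
  exact h

lemma surj_psi {p : ℕ} (ψ : 𝓞 K →+* ZMod p) : Function.Surjective ψ := ZMod.ringHom_surjective ψ

variable {κ : Type} [Fintype κ] [DecidableEq κ] (ω : Module.Basis κ ℤ (𝓞 K)) {S : Type} [Fintype S] [DecidableEq S]

/-- the values at a prime of the integers with given coordinates -/
noncomputable def uu {p : ℕ} (ψ : 𝓞 K →+* ZMod p) (a : S × κ → ZMod p) (s : S) : ZMod p := ∑ k, a (s, k) * ψ (ω k)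

/-- the integers with given coordinates -/
noncomputable def dec (y : S × κ → ℤ) (s : S) : 𝓞 K := ∑ k, y (s, k) • ω k

lemma psi_dec {p : ℕ} (ψ : 𝓞 K →+* ZMod p) (y : S × κ → ℤ) :
    (fun s => ψ (dec ω y s)) = uu ω ψ (fun x => (y x : ZMod p)) := by
  funext s
  unfold dec uu
  rw [map_sum]
  refine sum_congr rfl fun k _ => ?_
  rw [map_zsmul, zsmul_eq_mul]

lemma av_uu {p : ℕ} [hp : Fact p.Prime] (ψ : 𝓞 K →+* ZMod p) (G : (S → ZMod p) → ℝ) :
    av (fun a : S × κ → ZMod p => G (uu ω ψ a)) = av G := by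
  have h0 : ∑ k, ((ω.repr 1 k : ℤ) : ZMod p) * ψ (ω k) = 1 := by
    have h1 : ∑ k, (ω.repr 1 k) • ω k = (1 : 𝓞 K) := ω.sum_repr 1
    have h2 := congrArg ψ h1
    rw [map_sum, map_one ψ] at h2
    rw [← h2]
    refine sum_congr rfl fun k _ => ?_
    rw [map_zsmul, zsmul_eq_mul]
  have h1 := av_indep (Γ := S × κ → ZMod p) (H := S → ZMod p) (uu ω ψ)
    (fun t x => t x.1 * ((ω.repr 1 x.2 : ℤ) : ZMod p)) (fun a t => by
      funext s
      unfold uu
      rw [Pi.add_apply]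
      have h2 : ∑ k, (a + fun x : S × κ => t x.1 * ((ω.repr 1 x.2 : ℤ) : ZMod p)) (s, k) * ψ (ω k) =
          ∑ k, a (s, k) * ψ (ω k) + t s * ∑ k, ((ω.repr 1 k : ℤ) : ZMod p) * ψ (ω k) := by
        rw [mul_sum, ← sum_add_distrib]
        refine sum_congr rfl fun k _ => ?_
        rw [Pi.add_apply]
        ring
      rw [h2, h0, mul_one]) (fun _ => (1 : ℝ)) (fun _ _ => rfl) G
  rw [av_const, one_mul] at h1
  simp only [one_mul] at h1
  exact h1

end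

section

variable {K : Type} [Field K] [NumberField K] {κ : Type} [Fintype κ] [DecidableEq κ] (ω : Module.Basis κ ℤ (𝓞 K))
  {A : Type} [Fintype A] [DecidableEq A] {ι : A → Type} [∀ a, Fintype (ι a)] [∀ a, DecidableEq (ι a)] {n : ℕ}

/-- the centred sum of the traces at the primes above `p` -/
noncomputable def GG (w : ℕ → ℕ) (D r ν i : ℕ) (E : Set (MvPolynomial (Fin (n + 1)) (𝓞 K)))
    (f : (a : A) → ι a → MvPolynomial (Fin (n + 1)) (𝓞 K)) (Δ : MvPolynomial (Σ a, ι a) (𝓞 K)) (p : ℕ)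
    (a : (Σ a, ι a) × κ → ZMod p) : ℝ :=
  if hp : p.Prime then
    haveI : Fact p.Prime := ⟨hp⟩
    Real.log p * ∑ ψ ∈ hs K p, (XX w D r ν i E f Δ ψ (uu ω ψ a) - av (XX w D r ν i E f Δ ψ))
  else 0

/-- the sum of the traces at the primes above `p` -/
noncomputable def YY (w : ℕ → ℕ) (D r ν i : ℕ) (E : Set (MvPolynomial (Fin (n + 1)) (𝓞 K)))
    (f : (a : A) → ι a → MvPolynomial (Fin (n + 1)) (𝓞 K)) (Δ : MvPolynomial (Σ a, ι a) (𝓞 K)) (p : ℕ)
    (c : (Σ a, ι a) → 𝓞 K) : ℝ :=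
  if hp : p.Prime then
    haveI : Fact p.Prime := ⟨hp⟩
    ∑ ψ ∈ hs K p, XX w D r ν i E f Δ ψ (fun s => ψ (c s))
  else 0

open Classical in
/-- the main term at the primes above `p` -/
noncomputable def MM (w : ℕ → ℕ) (D r ν i : ℕ) (Δ : MvPolynomial (Σ a, ι a) (𝓞 K)) (z : (p : ℕ) → (𝓞 K →+* ZMod p) → ℕ) (p : ℕ) : ℝ :=
  if hp : p.Prime then
    haveI : Fact p.Prime := ⟨hp⟩
    ∑ ψ ∈ hs K p, if map ψ Δ = 0 then 0 else ∑ l ∈ range (ν + 1), (TT w D r ν i l : ℝ) * (z p ψ : ℝ) ^ l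
  else 0

open Classical in
/-- **All truncations at once.** -/
theorem main (D : ℕ) (hD : 1 ≤ D) (r : ℕ) (hr : 1 ≤ r) (hA : Fintype.card A = r) (w : ℕ → ℕ) (hw : w (D + r) = 1) (C₀ C₁ : ℝ)
    (ν : ℕ) (hν : 1 ≤ ν) (i : ℕ) {J : Type} {h : J → MvPolynomial (Fin (n + 1)) (𝓞 K)} {e : J → ℕ} {d : A → ℕ}
    {f : (a : A) → ι a → MvPolynomial (Fin (n + 1)) (𝓞 K)} (hh : ∀ j, (h j).IsHomogeneous (e j))
    (hd : ∀ j a, e j + 2 * ν ≤ d a + 1) (hf : ∀ a, Through h (d a) (f a)) (E : Set (MvPolynomial (Fin (n + 1)) (𝓞 K)))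
    (Δ : MvPolynomial (Σ a, ι a) (𝓞 K)) (z : (p : ℕ) → (𝓞 K →+* ZMod p) → ℕ)
    (hW : ∀ (p : ℕ) [Fact p.Prime] (ψ : 𝓞 K →+* ZMod p), map ψ Δ ≠ 0 →
      |(zeros ψ E : ℝ) - ∑ j ∈ range (D + r + 1), w j * (p : ℝ) ^ j| ≤ C₀ * Real.sqrt p ^ (2 * r + D - 1))
    (hz : ∀ (p : ℕ) [Fact p.Prime] (ψ : 𝓞 K →+* ZMod p), map ψ Δ ≠ 0 → (z p ψ : ℝ) ≤ C₁)
    (hZ : ∀ (p : ℕ) [Fact p.Prime] (ψ : 𝓞 K →+* ZMod p), map ψ Δ ≠ 0 →
      |(zeros ψ (E ∪ Set.range h) : ℝ) - z p ψ * Real.sqrt p ^ D| ≤ C₁ * Real.sqrt p ^ D / Real.sqrt p) :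
    ∃ K₁ : ℝ, 0 < K₁ ∧ ∀ K' : ℝ, K₁ ≤ K' → ∀ (T : ℕ) (m : (Σ a, ι a) × κ → ℤ) (L : (Σ a, ι a) × κ → ℕ), (∀ x, K₁ * (T + 1) ^ 3 ≤ L x) →
      ∀ (P : ((Σ a, ι a) × κ → ℤ) → Prop), (∀ y, P y → ∃ T' : ℕ, 2 ≤ T' ∧ T' ≤ T ∧ K' * (Real.sqrt T' * (Real.log T') ^ 3) <
        |∑ p ∈ Nat.primesLE T', Real.log p * (YY w D r ν i E f Δ p (dec ω y) - MM w D r ν i Δ z p)|) →
      (((tbox m L).filter P).card : ℝ) ≤ K₁ / K' ^ 2 * ∏ x, (L x : ℝ) := by
  obtain ⟨Q, hQ0, hQ⟩ := loc D hD r hr hA w hw C₀ C₁ ν hν i hh hd hf E Δ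
  obtain ⟨H, hH⟩ : ∃ H : ℝ, H = Module.finrank ℚ K := ⟨_, rfl⟩
  have hH0 : 0 ≤ H := by
    rw [hH]
    exact Nat.cast_nonneg _
  have hloc : ∀ (p : ℕ) [Fact p.Prime] (ψ : 𝓞 K →+* ZMod p),
      |av (XX w D r ν i E f Δ ψ) - (if map ψ Δ = 0 then 0 else ∑ l ∈ range (ν + 1), (TT w D r ν i l : ℝ) * (z p ψ : ℝ) ^ l)| ≤ Q / Real.sqrt p ∧
      av (fun u => XX w D r ν i E f Δ ψ u ^ 2) ≤ Q := by
    intro p hp ψ
    by_cases hΔ : map ψ Δ = 0
    · have h1 : XX w D r ν i E f Δ ψ = fun _ => 0 := funext (XX_zero w D r ν i E f Δ ψ hΔ)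
      rw [if_pos hΔ, h1]
      refine ⟨?_, ?_⟩
      · rw [av_const, sub_zero, abs_zero]
        positivity
      · have h2 : (fun _ : (Σ a, ι a) → ZMod p => (0 : ℝ) ^ 2) = fun _ => 0 := by
          funext _
          norm_num
        rw [h2, av_const]
        exact hQ0
    · rw [if_neg hΔ]
      have h1 := hQ ψ (surj_psi ψ) (z p ψ) hΔ
      rw [Nat.card_zmod] at h1
      exact h1 (hW p ψ hΔ) (hz p ψ hΔ) (hZ p ψ hΔ)
  refine ⟨1000000 * (H ^ 2 * Q) + 9 * (H * Q) + 4 * (Fintype.card ((Σ a, ι a) × κ) + 1), by positivity, ?_⟩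
  intro K' hK' T m L hL P hP
  have hcard0 : (0 : ℝ) ≤ Fintype.card ((Σ a, ι a) × κ) := Nat.cast_nonneg _
  have hHQ : 0 ≤ H * Q := mul_nonneg hH0 hQ0
  have hH2Q : 0 ≤ H ^ 2 * Q := by positivity
  have hKpos : 0 < K' := by linarith
  have hG : ∀ p, p.Prime → ∀ _ : Fact p.Prime, ex (GG ω w D r ν i E f Δ p) = 0 ∧
      ex (fun a => GG ω w D r ν i E f Δ p a ^ 2) ≤ H ^ 2 * Q * (Real.log p) ^ 2 := by
    intro p hp hF
    have h1 : GG ω w D r ν i E f Δ p = fun a => Real.log p * ∑ ψ ∈ hs K p, (XX w D r ν i E f Δ ψ (uu ω ψ a) - av (XX w D r ν i E f Δ ψ)) := by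
      funext a
      unfold GG
      rw [dif_pos hp]
    have h2 : ∀ ψ : 𝓞 K →+* ZMod p, av (fun a : (Σ a, ι a) × κ → ZMod p => (XX w D r ν i E f Δ ψ (uu ω ψ a) - av (XX w D r ν i E f Δ ψ)) ^ 2) ≤ Q := by
      intro ψ
      rw [av_uu ω ψ (fun u => (XX w D r ν i E f Δ ψ u - av (XX w D r ν i E f Δ ψ)) ^ 2)]
      exact (av_var _).trans (hloc p ψ).2
    refine ⟨?_, ?_⟩
    · rw [ex_eq_av, h1, av_smul, av_sum]
      have h3 : ∀ ψ ∈ hs K p, av (fun a : (Σ a, ι a) × κ → ZMod p => XX w D r ν i E f Δ ψ (uu ω ψ a) - av (XX w D r ν i E f Δ ψ)) = 0 := by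
        intro ψ _
        rw [av_sub, av_const, av_uu ω ψ (XX w D r ν i E f Δ ψ), sub_self]
      rw [sum_congr rfl h3, sum_const_zero, mul_zero]
    · rw [ex_eq_av, h1]
      have h3 : ∀ a : (Σ a, ι a) × κ → ZMod p, (Real.log p * ∑ ψ ∈ hs K p, (XX w D r ν i E f Δ ψ (uu ω ψ a) - av (XX w D r ν i E f Δ ψ))) ^ 2 ≤
          (Real.log p) ^ 2 * (H * ∑ ψ ∈ hs K p, (XX w D r ν i E f Δ ψ (uu ω ψ a) - av (XX w D r ν i E f Δ ψ)) ^ 2) := by
        intro a
        rw [mul_pow]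
        refine mul_le_mul_of_nonneg_left ?_ (sq_nonneg _)
        refine sq_sum_le_card_mul_sum_sq.trans ?_
        refine mul_le_mul_of_nonneg_right ?_ (sum_nonneg fun _ _ => sq_nonneg _)
        rw [hH]
        exact_mod_cast card_hs p
      refine (av_mono _ _ h3).trans ?_
      rw [av_smul, av_smul, av_sum]
      have h4 : ∑ ψ ∈ hs K p, av (fun a : (Σ a, ι a) × κ → ZMod p => (XX w D r ν i E f Δ ψ (uu ω ψ a) - av (XX w D r ν i E f Δ ψ)) ^ 2) ≤ H * Q := by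
        refine (sum_le_sum fun ψ _ => h2 ψ).trans ?_
        rw [sum_const, nsmul_eq_mul]
        refine mul_le_mul_of_nonneg_right ?_ hQ0
        rw [hH]
        exact_mod_cast card_hs p
      calc Real.log p ^ 2 * (H * ∑ ψ ∈ hs K p, av (fun a : (Σ a, ι a) × κ → ZMod p =>
            (XX w D r ν i E f Δ ψ (uu ω ψ a) - av (XX w D r ν i E f Δ ψ)) ^ 2)) ≤ Real.log p ^ 2 * (H * (H * Q)) :=
            mul_le_mul_of_nonneg_left (mul_le_mul_of_nonneg_left h4 hH0) (sq_nonneg _)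
        _ = _ := by ring
  have key := scales (GG ω w D r ν i E f Δ) (H ^ 2 * Q) hH2Q hG K' hKpos T m L (fun x => by
      refine le_trans ?_ (hL x)
      refine mul_le_mul_of_nonneg_right ?_ (by positivity)
      linarith) P (by
    intro y hy
    obtain ⟨T', h2, hT', hlt⟩ := hP y hy
    refine ⟨T', h2, hT', ?_⟩
    have hsum : ∑ p ∈ Nat.primesLE T', Real.log p * (YY w D r ν i E f Δ p (dec ω y) - MM w D r ν i Δ z p) =
        ∑ p ∈ Nat.primesLE T', GG ω w D r ν i E f Δ p (fun x => (y x : ZMod p)) +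
        ∑ p ∈ Nat.primesLE T', Real.log p * (if hp : p.Prime then haveI : Fact p.Prime := ⟨hp⟩
          ∑ ψ ∈ hs K p, (av (XX w D r ν i E f Δ ψ) - (if map ψ Δ = 0 then 0 else ∑ l ∈ range (ν + 1), (TT w D r ν i l : ℝ) * (z p ψ : ℝ) ^ l)) else 0) := by
      rw [← sum_add_distrib]
      refine sum_congr rfl fun p hp => ?_
      have hprime := Nat.prime_of_mem_primesLE hp
      have : Fact p.Prime := ⟨hprime⟩
      unfold GG YY MM
      rw [dif_pos hprime, dif_pos hprime, dif_pos hprime, dif_pos hprime, ← mul_add, ← sum_sub_distrib, ← sum_add_distrib]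
      congr 1
      refine sum_congr rfl fun ψ _ => ?_
      rw [psi_dec]
      ring
    have herr : |∑ p ∈ Nat.primesLE T', Real.log p * (if hp : p.Prime then haveI : Fact p.Prime := ⟨hp⟩
          ∑ ψ ∈ hs K p, (av (XX w D r ν i E f Δ ψ) - (if map ψ Δ = 0 then 0 else ∑ l ∈ range (ν + 1), (TT w D r ν i l : ℝ) * (z p ψ : ℝ) ^ l)) else 0)| ≤
        H * Q * (2 * (Real.sqrt T' * Real.log T')) := by
      refine (abs_sum_le_sum_abs _ _).trans ?_
      refine le_trans ?_ (mul_le_mul_of_nonneg_left (sum_log_sqrt T') hHQ)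
      rw [mul_sum]
      refine sum_le_sum fun p hp => ?_
      have hprime := Nat.prime_of_mem_primesLE hp
      have hF : Fact p.Prime := ⟨hprime⟩
      rw [dif_pos hprime, abs_mul, abs_of_nonneg (Real.log_natCast_nonneg p)]
      have h3 : |∑ ψ ∈ hs K p, (av (XX w D r ν i E f Δ ψ) - (if map ψ Δ = 0 then 0 else ∑ l ∈ range (ν + 1), (TT w D r ν i l : ℝ) * (z p ψ : ℝ) ^ l))| ≤
          H * (Q / Real.sqrt p) := by
        refine (abs_sum_le_sum_abs _ _).trans ((sum_le_sum fun ψ _ => (hloc p ψ).1).trans ?_)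
        rw [sum_const, nsmul_eq_mul]
        refine mul_le_mul_of_nonneg_right ?_ (by positivity)
        rw [hH]
        exact_mod_cast card_hs p
      calc Real.log p * |∑ ψ ∈ hs K p, (av (XX w D r ν i E f Δ ψ) - (if map ψ Δ = 0 then 0 else ∑ l ∈ range (ν + 1), (TT w D r ν i l : ℝ) * (z p ψ : ℝ) ^ l))| ≤
          Real.log p * (H * (Q / Real.sqrt p)) := mul_le_mul_of_nonneg_left h3 (Real.log_natCast_nonneg p)
        _ = H * Q * (Real.log p / Real.sqrt p) := by ring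
    rw [hsum] at hlt
    have hlog2 : (0.69 : ℝ) ≤ Real.log T' := by
      have h3 := Real.log_two_gt_d9
      have h4 : Real.log 2 ≤ Real.log (T' : ℝ) := Real.log_le_log (by norm_num) (by exact_mod_cast h2)
      linarith
    obtain ⟨g, hg⟩ : ∃ g : ℝ, g = Real.log T' := ⟨_, rfl⟩
    obtain ⟨σ, hσ⟩ : ∃ σ : ℝ, σ = Real.sqrt T' := ⟨_, rfl⟩
    have hσ0 : 0 ≤ σ := by
      rw [hσ]
      exact Real.sqrt_nonneg _
    rw [← hg] at hlog2 hlt herr ⊢
    rw [← hσ] at hlt herr ⊢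
    have h3 : H * Q * (2 * (σ * g)) ≤ K' / 2 * (σ * g ^ 3) := by
      have h4 : 9 * (H * Q) ≤ K' := by linarith
      have h5 : (0.47 : ℝ) ≤ g ^ 2 := by nlinarith
      have h6 : 0 ≤ σ * g := mul_nonneg hσ0 (by linarith)
      have h7 : 2 * (H * Q) ≤ K' / 2 * g ^ 2 := by nlinarith
      calc H * Q * (2 * (σ * g)) = 2 * (H * Q) * (σ * g) := by ring
        _ ≤ K' / 2 * g ^ 2 * (σ * g) := mul_le_mul_of_nonneg_right h7 h6
        _ = _ := by ring
    have h5 := abs_add_le (∑ p ∈ Nat.primesLE T', GG ω w D r ν i E f Δ p (fun x => (y x : ZMod p)))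
      (∑ p ∈ Nat.primesLE T', Real.log p * (if hp : p.Prime then haveI : Fact p.Prime := ⟨hp⟩
          ∑ ψ ∈ hs K p, (av (XX w D r ν i E f Δ ψ) - (if map ψ Δ = 0 then 0 else ∑ l ∈ range (ν + 1), (TT w D r ν i l : ℝ) * (z p ψ : ℝ) ^ l)) else 0))
    linarith)
  refine key.trans (mul_le_mul_of_nonneg_right ?_ (by positivity))
  refine div_le_div_of_nonneg_right ?_ (by positivity)
  linarith

end

end Q282NA
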