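import Pool.Agent.Q282.AE.Lin
import Pool.Agent.Q282.NA.Sum

/-!
# Complete intersections through linear subspaces over rings of integers
-/

set_option autoImplicit false
set_option linter.unusedSectionVars false

namespace Q282NA

open Finset MvPolynomial NumberField
open scoped LinearAlgebra.Projectivization
open Q282RH (ex tbox)
open Q282GH (zeros Through)
open Q282GP (TT)

section

variable {O : Type} [CommRing O] {n : ℕ}

/-- the linear form with coefficients `v` -/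
noncomputable def lform (v : Fin (n + 1) → O) : MvPolynomial (Fin (n + 1)) O := ∑ j, C (v j) * X j

/-- the products of one equation of each of the linear subspaces -/
noncomputable def pforms {s c : ℕ} (l : Fin s → Fin c → Fin (n + 1) → O) (φ : Fin s → Fin c) :
    MvPolynomial (Fin (n + 1)) O := ∏ i, lform (l i (φ i))

lemma lform_hom (v : Fin (n + 1) → O) : (lform v).IsHomogeneous 1 := by
  unfold lform
  exact IsHomogeneous.sum _ _ _ fun i _ => isHomogeneous_C_mul_X _ _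

lemma pforms_hom {s c : ℕ} (l : Fin s → Fin c → Fin (n + 1) → O) (φ : Fin s → Fin c) : (pforms l φ).IsHomogeneous s := by
  unfold pforms
  have := IsHomogeneous.prod univ (fun i => lform (l i (φ i))) (fun _ => 1) (fun i _ => lform_hom _)
  rw [sum_const, card_univ, Fintype.card_fin, smul_eq_mul, mul_one] at this
  exact this

variable {F : Type} [Field F]

/-- over `ψ` the linear equations are independent, and the linear subspaces are different -/
def Subspaces (ψ : O →+* F) {s c : ℕ} (l : Fin s → Fin c → Fin (n + 1) → O) : Prop :=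
  (∀ i, LinearIndependent F fun a j => ψ (l i a j)) ∧
  ∀ i i', i ≠ i' → ∃ y : Fin (n + 1) → F, ¬ ((∀ a, ∑ j, ψ (l i a j) * y j = 0) ↔ ∀ a, ∑ j, ψ (l i' a j) * y j = 0)

/-- the common zeros of the rows -/
noncomputable def kerAt (ψ : O →+* F) {c : ℕ} (v : Fin c → Fin (n + 1) → O) : Submodule F (Fin (n + 1) → F) :=
  LinearMap.ker (Matrix.mulVecLin (Matrix.of fun a j => ψ (v a j)))

lemma mem_kerAt {ψ : O →+* F} {c : ℕ} {v : Fin c → Fin (n + 1) → O} {y : Fin (n + 1) → F} :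
    y ∈ kerAt ψ v ↔ ∀ a, ∑ j, ψ (v a j) * y j = 0 := by
  unfold kerAt
  rw [LinearMap.mem_ker, Matrix.mulVecLin_apply]
  constructor
  · intro h k
    exact congrFun h k
  · intro h
    funext k
    exact h k

lemma finrank_kerAt {ψ : O →+* F} {c : ℕ} {v : Fin c → Fin (n + 1) → O}
    (hv : LinearIndependent F fun a j => ψ (v a j)) : c + Module.finrank F (kerAt ψ v) = n + 1 := by
  have h1 : (Matrix.of fun a j => ψ (v a j)).rank = c := by
    have := LinearIndependent.rank_matrix (M := Matrix.of fun a j => ψ (v a j)) hv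
    rw [this, Fintype.card_fin]
  have h2 := LinearMap.finrank_range_add_finrank_ker (Matrix.mulVecLin (Matrix.of fun a j => ψ (v a j)))
  rw [Module.finrank_fin_fun] at h2
  have h3 : Module.finrank F (LinearMap.range (Matrix.mulVecLin (Matrix.of fun a j => ψ (v a j)))) = c := h1
  rw [h3] at h2
  exact h2

lemma val_lform (ψ : O →+* F) (v : Fin (n + 1) → O) (y : Fin (n + 1) → F) :
    eval₂ ψ y (lform v) = ∑ j, ψ (v j) * y j := by
  unfold lform
  rw [eval₂_sum]
  refine sum_congr rfl fun j _ => ?_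
  rw [eval₂_mul, eval₂_C, eval₂_X]

lemma zeros_pforms (ψ : O →+* F) {s c : ℕ} (l : Fin s → Fin c → Fin (n + 1) → O) :
    zeros ψ (∅ ∪ Set.range (pforms l)) = Nat.card {P : ℙ F (Fin (n + 1) → F) // ∃ i, P.rep ∈ kerAt ψ (l i)} := by
  unfold zeros
  refine Nat.card_congr (Equiv.subtypeEquivRight fun P => ?_)
  constructor
  · intro h
    by_contra hcon
    push Not at hcon
    have h1 : ∀ i, ∃ a, eval₂ ψ P.rep (lform (l i a)) ≠ 0 := by
      intro i
      have h2 := hcon i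
      rw [mem_kerAt] at h2
      push Not at h2
      obtain ⟨a, ha⟩ := h2
      exact ⟨a, by rw [val_lform]; exact ha⟩
    choose φ hφ using h1
    have h2 := h (pforms l φ) (Or.inr ⟨φ, rfl⟩)
    unfold pforms at h2
    rw [eval₂_prod, prod_eq_zero_iff] at h2
    obtain ⟨i, _, hi⟩ := h2
    exact hφ i hi
  · rintro ⟨i, hi⟩ G (hG | ⟨φ, rfl⟩)
    · exact absurd hG (Set.notMem_empty _)
    · unfold pforms
      rw [eval₂_prod]
      refine prod_eq_zero (mem_univ i) ?_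
      rw [val_lform]
      rw [mem_kerAt] at hi
      exact hi (φ i)

/-- **The points of a union of linear subspaces.** -/
theorem subspaces_count [Fintype F] (ψ : O →+* F) {s c m : ℕ} (l : Fin s → Fin c → Fin (n + 1) → O)
    (hl : Subspaces ψ l) (hc : c + m = n) :
    |(zeros ψ (∅ ∪ Set.range (pforms l)) : ℝ) - s * (Fintype.card F : ℝ) ^ m| ≤
      (2 * s + 2 * s ^ 2) * ((Fintype.card F : ℝ) ^ m / Fintype.card F) := by
  classical
  rw [zeros_pforms]
  refine Q282AE.union_count (fun i => kerAt ψ (l i)) (fun i => ?_) (fun i j hij h => ?_)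
  · have := finrank_kerAt (hl.1 i)
    omega
  · obtain ⟨y, hy⟩ := hl.2 i j hij
    apply hy
    rw [← mem_kerAt, ← mem_kerAt]
    rw [h]

theorem subspaces_norm [Fintype F] (ψ : O →+* F) {s c m' D : ℕ} (hm' : 2 * m' ≤ D) (l : Fin s → Fin c → Fin (n + 1) → O)
    (hl : Subspaces ψ l) (hc : c + m' = n) :
    |(zeros ψ (∅ ∪ Set.range (pforms l)) : ℝ) - (if 2 * m' = D then s else 0 : ℕ) * Real.sqrt (Nat.card F) ^ D| ≤
      (3 * s + 2 * s ^ 2) * Real.sqrt (Nat.card F) ^ D / Real.sqrt (Nat.card F) := by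
  have h1 := subspaces_count (m := m') ψ l hl hc
  rw [← Nat.card_eq_fintype_card] at h1
  obtain ⟨u, hu⟩ : ∃ u : ℝ, u = Real.sqrt (Nat.card F) := ⟨_, rfl⟩
  have hp1 : (1 : ℝ) ≤ Nat.card F := by exact_mod_cast Nat.card_pos
  have hu1 : 1 ≤ u := by
    rw [hu]
    exact Real.one_le_sqrt.2 hp1
  have hu0 : 0 < u := by linarith
  have hup : (Nat.card F : ℝ) = u ^ 2 := by
    rw [hu, Real.sq_sqrt (by linarith)]
  rw [hup] at h1
  rw [← hu]
  obtain ⟨Z, hZ⟩ : ∃ Z : ℝ, Z = (zeros ψ (∅ ∪ Set.range (pforms l)) : ℝ) := ⟨_, rfl⟩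
  have hZ0 : 0 ≤ Z := by
    rw [hZ]
    exact Nat.cast_nonneg _
  rw [← hZ] at h1 ⊢
  have hs0 : (0 : ℝ) ≤ s := Nat.cast_nonneg _
  by_cases hD2 : 2 * m' = D
  · rw [if_pos hD2]
    have h3 : (u ^ 2) ^ m' = u ^ D := by rw [← pow_mul, hD2]
    rw [h3] at h1
    have huD : 0 < u ^ D := pow_pos hu0 D
    refine h1.trans ?_
    have h5 : u ^ D / u ^ 2 ≤ u ^ D / u := by
      refine div_le_div_of_nonneg_left huD.le hu0 ?_
      nlinarith
    calc (2 * (s : ℝ) + 2 * s ^ 2) * (u ^ D / u ^ 2) ≤ (3 * s + 2 * s ^ 2) * (u ^ D / u) := mul_le_mul (by linarith) h5 (by positivity) (by positivity)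
      _ = _ := by ring
  · rw [if_neg hD2]
    have h3 : (u ^ 2) ^ m' * u ≤ u ^ D := by
      rw [← pow_mul, ← pow_succ]
      exact pow_le_pow_right₀ hu1 (by omega)
    have hum : 0 < (u ^ 2) ^ m' := by positivity
    have h4 : (u ^ 2) ^ m' / u ^ 2 ≤ (u ^ 2) ^ m' := div_le_self hum.le (by nlinarith)
    have h5 : Z ≤ (3 * s + 2 * s ^ 2) * (u ^ 2) ^ m' := by
      have h6 := (abs_le.1 h1).2
      have h7 : (2 * (s : ℝ) + 2 * s ^ 2) * ((u ^ 2) ^ m' / u ^ 2) ≤ (2 * (s : ℝ) + 2 * s ^ 2) * (u ^ 2) ^ m' :=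
        mul_le_mul_of_nonneg_left h4 (by positivity)
      linarith
    rw [Nat.cast_zero, zero_mul, sub_zero, abs_of_nonneg hZ0, le_div_iff₀ hu0]
    calc Z * u ≤ (3 * s + 2 * s ^ 2) * (u ^ 2) ^ m' * u := mul_le_mul_of_nonneg_right h5 hu0.le
      _ = (3 * s + 2 * s ^ 2) * ((u ^ 2) ^ m' * u) := by ring
      _ ≤ (3 * s + 2 * s ^ 2) * u ^ D := mul_le_mul_of_nonneg_left h3 (by positivity)

end

section

variable {K : Type} [Field K] [NumberField K] {κ : Type} [Fintype κ] [DecidableEq κ] (ω : Module.Basis κ ℤ (𝓞 K))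
  {A : Type} [Fintype A] [DecidableEq A] {ι : A → Type} [∀ a, Fintype (ι a)] [∀ a, DecidableEq (ι a)]

/-- **All truncations at once, complete intersections through linear subspaces.** -/
theorem main_lin (D : ℕ) (hD : 1 ≤ D) (r : ℕ) (hr : 1 ≤ r) (hA : Fintype.card A = r)
    (ν : ℕ) (hν : 1 ≤ ν) (i : ℕ) {d : A → ℕ} {s m' : ℕ} (hm' : 2 * m' ≤ D)
    (l : Fin s → Fin (D + r - m') → Fin (D + r + 1) → 𝓞 K)
    {f : (a : A) → ι a → MvPolynomial (Fin (D + r + 1)) (𝓞 K)}
    (hd : ∀ a, s + 2 * ν ≤ d a + 1) (hf : ∀ a, Through (pforms l) (d a) (f a))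
    (Δ : MvPolynomial (Σ a, ι a) (𝓞 K))
    (hl : ∀ (p : ℕ) [Fact p.Prime] (ψ : 𝓞 K →+* ZMod p), map ψ Δ ≠ 0 → Subspaces ψ l) :
    ∃ K₁ : ℝ, 0 < K₁ ∧ ∀ K' : ℝ, K₁ ≤ K' → ∀ (T : ℕ) (m : (Σ a, ι a) × κ → ℤ) (L : (Σ a, ι a) × κ → ℕ), (∀ x, K₁ * (T + 1) ^ 3 ≤ L x) →
      ∀ (P : ((Σ a, ι a) × κ → ℤ) → Prop), (∀ y, P y → ∃ T' : ℕ, 2 ≤ T' ∧ T' ≤ T ∧ K' * (Real.sqrt T' * (Real.log T') ^ 3) <
        |∑ p ∈ Nat.primesLE T', Real.log p * (YY (fun _ => 1) D r ν i ∅ f Δ p (dec ω y) -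
          MM (fun _ => 1) D r ν i Δ (fun _ _ => if 2 * m' = D then s else 0) p)|) →
      (({y ∈ tbox m L | P y} : Set ((Σ a, ι a) × κ → ℤ)).ncard : ℝ) ≤ K₁ / K' ^ 2 * ∏ x, (L x : ℝ) := by
  classical
  have key := main ω D hD r hr hA (fun _ => 1) rfl 0 (3 * s + 2 * s ^ 2) ν hν i (h := pforms l) (e := fun _ => s) (d := d) (f := f)
    (fun φ => pforms_hom l φ) (fun _ a => hd a) hf ∅ Δ (fun _ _ => if 2 * m' = D then s else 0)
    (fun p hp ψ _ => by
      have h1 : (zeros ψ (∅ : Set (MvPolynomial (Fin (D + r + 1)) (𝓞 K))) : ℝ) = ∑ j ∈ range (D + r + 1), (p : ℝ) ^ j := by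
        unfold zeros
        have h2 : Nat.card {P : ℙ (ZMod p) (Fin (D + r + 1) → ZMod p) // ∀ G ∈ (∅ : Set (MvPolynomial (Fin (D + r + 1)) (𝓞 K))), eval₂ ψ P.rep G = 0} =
            Nat.card (ℙ (ZMod p) (Fin (D + r + 1) → ZMod p)) :=
          Nat.card_congr (Equiv.subtypeUnivEquiv fun P G hG => absurd hG (Set.notMem_empty _))
        rw [h2, Projectivization.card_of_finrank (ZMod p) _ (by rw [Module.finrank_fin_fun]), Nat.card_zmod]
        push_cast
        rfl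
      rw [h1]
      simp)
    (fun p hp ψ _ => by
      have hs0 : (0 : ℝ) ≤ s := Nat.cast_nonneg _
      have : (((if 2 * m' = D then s else 0 : ℕ)) : ℝ) ≤ s := by
        split_ifs
        · exact le_rfl
        · push_cast
          exact hs0
      nlinarith [sq_nonneg (s : ℝ)])
    (fun p hp ψ hψ => by
      have h1 := subspaces_norm ψ hm' l (hl p ψ hψ) (by omega)
      rw [Nat.card_zmod] at h1
      exact h1)
  obtain ⟨K₁, h0, h1⟩ := key
  refine ⟨K₁, h0, fun K' hK' T m L hL P hP => ?_⟩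
  have h2 := h1 K' hK' T m L hL P hP
  have h3 : ({y ∈ tbox m L | P y} : Set ((Σ a, ι a) × κ → ℤ)) = (((tbox m L).filter P : Finset ((Σ a, ι a) × κ → ℤ)) : Set _) := by
    ext y
    simp
  rw [h3, Set.ncard_coe_finset]
  exact h2

end

end Q282NA
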