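import Pool.Agent.Q282.AE.Ave
import Pool.Agent.Q282.GP.Main

/-!
# The traces of the members of a family of complete intersections over a finite field
-/

set_option autoImplicit false
set_option linter.unusedSectionVars false

namespace Q282NA

open Finset MvPolynomial
open Q282GH (zeros Through)
open Q282GP (av av_add av_sub av_smul av_sum av_const av_nonneg av_mono abs_av av_indep gen fam tt vv oser cc TT mid expand kun coh oc)

lemma pow_diff (x y B : ℝ) (hB : 1 ≤ B) (hx : |x| ≤ B) (hy : |y| ≤ B) (l : ℕ) : |x ^ l - y ^ l| ≤ l * B ^ l * |x - y| := by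
  induction l with
  | zero => simp
  | succ l ih =>
    have h1 : x ^ (l + 1) - y ^ (l + 1) = x * (x ^ l - y ^ l) + (x - y) * y ^ l := by ring
    have hB0 : 0 ≤ B := by linarith
    have h2 : |x * (x ^ l - y ^ l)| ≤ B * (l * B ^ l * |x - y|) := by
      rw [abs_mul]
      exact mul_le_mul hx ih (abs_nonneg _) hB0
    have h3 : |(x - y) * y ^ l| ≤ |x - y| * B ^ l := by
      rw [abs_mul, abs_pow]
      exact mul_le_mul_of_nonneg_left (pow_le_pow_left₀ (abs_nonneg _) hy l) (abs_nonneg _)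
    have h4 : |x - y| * B ^ l ≤ B * B ^ l * |x - y| := by
      have h5 : 0 ≤ |x - y| * B ^ l := by positivity
      nlinarith
    rw [h1]
    refine (abs_add_le _ _).trans ?_
    push_cast
    have h6 : ((l : ℝ) + 1) * B ^ (l + 1) * |x - y| = B * (l * B ^ l * |x - y|) + B * B ^ l * |x - y| := by ring
    rw [h6]
    linarith

section

variable {O : Type} [CommRing O] {F : Type} [Field F] {A : Type} [Fintype A] {ι : A → Type} [∀ a, Fintype (ι a)] {n : ℕ}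

/-- the normalised trace in the middle degree -/
noncomputable def tau (w : ℕ → ℕ) (D r : ℕ) (E : Set (MvPolynomial (Fin (n + 1)) O))
    (f : (a : A) → ι a → MvPolynomial (Fin (n + 1)) O) (ψ : O →+* F) (u : (Σ a, ι a) → F) : ℝ :=
  ((zeros (eval₂Hom ψ u) (fam E f) : ℝ) - tt w D r (Nat.card F)) / Real.sqrt (Nat.card F) ^ D

open Classical in
/-- the normalised trace on the cohomology of the power, zero outside the open set -/
noncomputable def XX (w : ℕ → ℕ) (D r ν i : ℕ) (E : Set (MvPolynomial (Fin (n + 1)) O))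
    (f : (a : A) → ι a → MvPolynomial (Fin (n + 1)) O) (Δ : MvPolynomial (Σ a, ι a) O)
    (ψ : O →+* F) (u : (Σ a, ι a) → F) : ℝ :=
  if eval₂ ψ u Δ = 0 then 0 else ∑ κ ∈ range (ν + 1), (cc w D r ν i κ : ℝ) * tau w D r E f ψ u ^ κ

/-- the equations of the member with the coefficients `c` -/
noncomputable def member (E : Set (MvPolynomial (Fin (n + 1)) O)) (f : (a : A) → ι a → MvPolynomial (Fin (n + 1)) O)
    (c : (Σ a, ι a) → O) : Set (MvPolynomial (Fin (n + 1)) O) :=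
  Set.range (fun a => ∑ j, C (c ⟨a, j⟩) * f a j) ∪ E

lemma eval_C_map (ψ : O →+* F) (u : (Σ a, ι a) → F) (y : Fin (n + 1) → F) (G : MvPolynomial (Fin (n + 1)) O) :
    eval₂ (eval₂Hom ψ u) y (map C G) = eval₂ ψ y G := by
  rw [eval₂_map]
  congr 1
  ext a
  simp

theorem zeros_member (E : Set (MvPolynomial (Fin (n + 1)) O)) (f : (a : A) → ι a → MvPolynomial (Fin (n + 1)) O)
    (c : (Σ a, ι a) → O) (ψ : O →+* F) :
    zeros (eval₂Hom ψ fun s => ψ (c s)) (fam E f) = zeros ψ (member E f c) := by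
  have hg : ∀ (P : Fin (n + 1) → F) (a : A), eval₂ (eval₂Hom ψ fun s => ψ (c s)) P (gen f a) =
      eval₂ ψ P (∑ j, C (c ⟨a, j⟩) * f a j) := by
    intro P a
    unfold gen
    rw [eval₂_sum, eval₂_sum]
    refine sum_congr rfl fun j _ => ?_
    rw [eval₂_mul, eval₂_mul, eval₂_C, eval₂_C, eval_C_map, coe_eval₂Hom, eval₂_X]
  unfold zeros
  refine Nat.card_congr (Equiv.subtypeEquivRight fun P => ?_)
  unfold fam member
  constructor
  · rintro h G (⟨a, rfl⟩ | hG)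
    · rw [← hg]
      exact h _ (Or.inl ⟨a, rfl⟩)
    · rw [← eval_C_map ψ fun s => ψ (c s)]
      exact h _ (Or.inr ⟨G, hG, rfl⟩)
  · rintro h G (⟨a, rfl⟩ | ⟨G, hG, rfl⟩)
    · rw [hg]
      exact h _ (Or.inl ⟨a, rfl⟩)
    · rw [eval_C_map]
      exact h _ (Or.inr hG)

/-- **The trace on the cohomology of the power of a member.** -/
theorem trace_member (w : ℕ → ℕ) (D r ν i : ℕ) (E : Set (MvPolynomial (Fin (n + 1)) O)) (f : (a : A) → ι a → MvPolynomial (Fin (n + 1)) O)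
    (Δ : MvPolynomial (Σ a, ι a) O) (c : (Σ a, ι a) → O) (ψ : O →+* F) (q : ℕ) (hq : Nat.card F = q) (hq0 : 0 < q)
    (hg : ψ (eval c Δ) ≠ 0) (α : Multiset ℂ)
    (hα : (zeros ψ (member E f c) : ℂ) = ((tt w D r (q : ℝ) : ℝ) : ℂ) + (-1) ^ D * α.sum) :
    (kun (coh w D r q α) ν (2 * i)).sum = (((q : ℝ) ^ i * XX w D r ν i E f Δ ψ (fun s => ψ (c s)) : ℝ) : ℂ) := by
  have hq0' : (0 : ℝ) < q := by exact_mod_cast hq0
  have hΔ : eval₂ ψ (fun s => ψ (c s)) Δ ≠ 0 := by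
    have h1 := eval₂_comp_left ψ (RingHom.id O) c Δ
    rw [RingHom.comp_id] at h1
    have h2 : eval₂ (RingHom.id O) c Δ = eval c Δ := rfl
    rw [h2] at h1
    have h3 : (fun s => ψ (c s)) = ψ ∘ c := rfl
    rw [h3, ← h1]
    exact hg
  unfold XX
  rw [if_neg hΔ]
  rw [← zeros_member] at hα
  have hu0 : (Real.sqrt q : ℂ) ≠ 0 := by
    rw [Complex.ofReal_ne_zero]
    exact (Real.sqrt_pos.2 hq0').ne'
  have h3 : α.sum = (-1) ^ D * (((tau w D r E f ψ (fun s => ψ (c s)) : ℝ) : ℂ) * (Real.sqrt q : ℂ) ^ D) := by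
    have h4 : ((tau w D r E f ψ (fun s => ψ (c s)) : ℝ) : ℂ) * (Real.sqrt q : ℂ) ^ D = (-1) ^ D * α.sum := by
      unfold tau
      rw [hq]
      push_cast
      rw [div_mul_cancel₀ _ (pow_ne_zero _ hu0), hα]
      ring
    rw [h4, ← mul_assoc, ← mul_pow]
    norm_num
  have h4 := Q282GP.trace w D r q α (Real.sqrt q : ℂ) _ (by
    rw [← Complex.ofReal_pow, Real.sq_sqrt hq0'.le]
    simp) h3 ν i
  rw [h4, Complex.ofReal_mul, Complex.ofReal_pow, Complex.ofReal_natCast, Complex.ofReal_sum]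
  congr 1
  refine sum_congr rfl fun κ _ => ?_
  rw [Complex.ofReal_mul, Complex.ofReal_pow, Complex.ofReal_natCast]
  rfl

lemma XX_bad (w : ℕ → ℕ) (D r ν i : ℕ) (E : Set (MvPolynomial (Fin (n + 1)) O)) (f : (a : A) → ι a → MvPolynomial (Fin (n + 1)) O)
    (Δ : MvPolynomial (Σ a, ι a) O) (c : (Σ a, ι a) → O) (ψ : O →+* F) (hg : ψ (eval c Δ) = 0) :
    XX w D r ν i E f Δ ψ (fun s => ψ (c s)) = 0 := by
  unfold XX
  rw [if_pos]
  have h1 := eval₂_comp_left ψ (RingHom.id O) c Δ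
  rw [RingHom.comp_id] at h1
  have h2 : eval₂ (RingHom.id O) c Δ = eval c Δ := rfl
  rw [h2, hg] at h1
  exact h1.symm

lemma XX_zero (w : ℕ → ℕ) (D r ν i : ℕ) (E : Set (MvPolynomial (Fin (n + 1)) O)) (f : (a : A) → ι a → MvPolynomial (Fin (n + 1)) O)
    (Δ : MvPolynomial (Σ a, ι a) O) (ψ : O →+* F) (h : map ψ Δ = 0) (u : (Σ a, ι a) → F) : XX w D r ν i E f Δ ψ u = 0 := by
  unfold XX
  rw [if_pos]
  rw [← MvPolynomial.eval_map, h, map_zero]

end

variable {O : Type} [CommRing O] {A : Type} [Fintype A] [DecidableEq A] {ι : A → Type} [∀ a, Fintype (ι a)] [∀ a, DecidableEq (ι a)] {n : ℕ}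

open Classical in
/-- **The average and the mean square of the traces over one finite field.** -/
theorem loc (D : ℕ) (hD : 1 ≤ D) (r : ℕ) (hr : 1 ≤ r) (hA : Fintype.card A = r) (w : ℕ → ℕ) (hw : w (D + r) = 1) (C₀ C₁ : ℝ)
    (ν : ℕ) (hν : 1 ≤ ν) (i : ℕ) {J : Type} {h : J → MvPolynomial (Fin (n + 1)) O} {e : J → ℕ} {d : A → ℕ}
    {f : (a : A) → ι a → MvPolynomial (Fin (n + 1)) O} (hh : ∀ j, (h j).IsHomogeneous (e j))
    (hd : ∀ j a, e j + 2 * ν ≤ d a + 1) (hf : ∀ a, Through h (d a) (f a)) (E : Set (MvPolynomial (Fin (n + 1)) O))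
    (Δ : MvPolynomial (Σ a, ι a) O) :
    ∃ K : ℝ, 0 ≤ K ∧ ∀ {F : Type} [Field F] [Fintype F] (ψ : O →+* F) (_ : Function.Surjective ψ) (z : ℕ), map ψ Δ ≠ 0 →
      |(zeros ψ E : ℝ) - ∑ j ∈ range (D + r + 1), w j * (Nat.card F : ℝ) ^ j| ≤ C₀ * Real.sqrt (Nat.card F) ^ (2 * r + D - 1) →
      (z : ℝ) ≤ C₁ →
      |(zeros ψ (E ∪ Set.range h) : ℝ) - z * Real.sqrt (Nat.card F) ^ D| ≤ C₁ * Real.sqrt (Nat.card F) ^ D / Real.sqrt (Nat.card F) →
      |av (XX w D r ν i E f Δ ψ) - ∑ l ∈ range (ν + 1), (TT w D r ν i l : ℝ) * (z : ℝ) ^ l| ≤ K / Real.sqrt (Nat.card F) ∧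
      av (fun u => XX w D r ν i E f Δ ψ u ^ 2) ≤ K := by
  obtain ⟨K, hK0, hK⟩ := Q282AE.good_mom D r hD hr w hw |C₀| (2 * |C₁|) Δ.totalDegree (abs_nonneg _) (by positivity) (Nat.cast_nonneg _) ν hν
  obtain ⟨c₁, hc₁⟩ : ∃ c₁ : ℝ, c₁ = ∑ κ ∈ range (ν + 1), (cc w D r ν i κ : ℝ) := ⟨_, rfl⟩
  obtain ⟨c₂, hc₂⟩ : ∃ c₂ : ℝ, c₂ = ∑ κ ∈ range (ν + 1), (cc w D r ν i κ : ℝ) ^ 2 := ⟨_, rfl⟩
  obtain ⟨c₃, hc₃⟩ : ∃ c₃ : ℝ, c₃ = ∑ l ∈ range (ν + 1), (TT w D r ν i l : ℝ) := ⟨_, rfl⟩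
  have hc₁0 : 0 ≤ c₁ := by
    rw [hc₁]
    positivity
  have hc₂0 : 0 ≤ c₂ := by
    rw [hc₂]
    positivity
  have hc₃0 : 0 ≤ c₃ := by
    rw [hc₃]
    positivity
  obtain ⟨B, hB⟩ : ∃ B : ℝ, B = 1 + 2 * |C₁| := ⟨_, rfl⟩
  have hB1 : 1 ≤ B := by
    rw [hB]
    have : 0 ≤ |C₁| := abs_nonneg _
    linarith
  obtain ⟨Z₁, hZ₁⟩ : ∃ Z₁ : ℝ, Z₁ = ν * B ^ ν * |C₁| := ⟨_, rfl⟩
  have hZ₁0 : 0 ≤ Z₁ := by
    rw [hZ₁]
    positivity
  refine ⟨c₁ * K + c₃ * Z₁ + ((ν + 1 : ℕ) : ℝ) * (c₂ * K), by positivity, ?_⟩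
  intro F _ _ ψ hψ z hΔ hW hz hZ
  rw [Nat.card_eq_fintype_card] at *
  have hp0 : (0 : ℝ) < Fintype.card F := Q282AE.card_pos
  have hp1 : (1 : ℝ) ≤ Fintype.card F := Q282AE.card_one
  obtain ⟨s, hs⟩ : ∃ s : ℝ, s = Real.sqrt (Fintype.card F) := ⟨_, rfl⟩
  have hs1 : 1 ≤ s := by
    rw [hs]
    exact Real.one_le_sqrt.2 hp1
  have hs0 : 0 < s := by linarith
  have hsD : 0 < s ^ D := by positivity
  have hC1 : |C₁| = C₁ := abs_of_nonneg ((Nat.cast_nonneg z).trans hz)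
  have hZ1 : (zeros ψ (E ∪ Set.range h) : ℝ) ≤ 2 * |C₁| * s ^ D := by
    rw [← hs] at hZ
    have h1 := (abs_le.1 hZ).2
    have h2 : C₁ * s ^ D / s ≤ |C₁| * s ^ D := by
      rw [div_le_iff₀ hs0, hC1]
      have : 0 ≤ C₁ * s ^ D := by
        rw [← hC1]
        positivity
      nlinarith
    have h3 : z * s ^ D ≤ |C₁| * s ^ D := by
      rw [hC1]
      exact mul_le_mul_of_nonneg_right hz hsD.le
    linarith
  have hbad : ((univ.filter fun u : (Σ a, ι a) → F => eval₂ ψ u Δ = 0).card : ℝ) ≤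
      (Δ.totalDegree : ℝ) * (Fintype.card F : ℝ) ^ Fintype.card (Σ a, ι a) / Fintype.card F := by
    have h1 := Q282GH.sz (map ψ Δ) hΔ
    rw [le_div_iff₀ hp0]
    rw [Nat.card_eq_fintype_card, Fintype.card_subtype] at h1
    have h2 : (univ.filter fun u : (Σ a, ι a) → F => eval u (map ψ Δ) = 0) = univ.filter fun u => eval₂ ψ u Δ = 0 := by
      refine filter_congr fun u _ => ?_
      rw [MvPolynomial.eval_map]
    rw [h2] at h1
    refine h1.trans (mul_le_mul_of_nonneg_right ?_ (by positivity))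
    have h3 : (map ψ Δ).totalDegree ≤ Δ.totalDegree := by
      unfold totalDegree
      exact Finset.sup_mono (support_map_subset _ _)
    exact_mod_cast h3
  have hmom : ∀ κ ≤ ν,
      |av (fun u => if eval₂ ψ u Δ = 0 then 0 else tau w D r E f ψ u ^ κ) -
        ∑ l ∈ range (ν + 1), (mid (vv w D r) κ l : ℝ) * ((zeros ψ (E ∪ Set.range h) : ℝ) / s ^ D) ^ l| ≤ K / s ∧
      av (fun u => (tau w D r E f ψ u ^ κ) ^ 2) ≤ K := by
    intro κ hκ
    have h1 := hK ψ hψ hA hh hd hf E (fun u => eval₂ ψ u Δ = 0) hbad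
      (hW.trans (mul_le_mul_of_nonneg_right (le_abs_self _) (by positivity)))
      (by rw [← hs]; exact hZ1) κ hκ
    rw [← hs] at h1
    rw [← expand _ _ κ ν hκ]
    unfold tau
    rw [Nat.card_eq_fintype_card, ← hs]
    exact h1
  have hXX : ∀ (u : (Σ a, ι a) → F), XX w D r ν i E f Δ ψ u =
      ∑ κ ∈ range (ν + 1), (cc w D r ν i κ : ℝ) * (if eval₂ ψ u Δ = 0 then 0 else tau w D r E f ψ u ^ κ) := by
    intro u
    unfold XX
    split_ifs
    · simp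
    · rfl
  obtain ⟨ζ, hζ⟩ : ∃ ζ : ℝ, ζ = (zeros ψ (E ∪ Set.range h) : ℝ) / s ^ D := ⟨_, rfl⟩
  have hζ0 : 0 ≤ ζ := by
    rw [hζ]
    positivity
  have hζB : |ζ| ≤ B := by
    rw [abs_of_nonneg hζ0, hζ, div_le_iff₀ hsD, hB]
    nlinarith
  have hzB : |(z : ℝ)| ≤ B := by
    rw [abs_of_nonneg (Nat.cast_nonneg z), hB, hC1]
    linarith [(Nat.cast_nonneg z : (0 : ℝ) ≤ z)]
  have hζz : |ζ - z| ≤ |C₁| / s := by
    rw [← hs] at hZ
    have h1 : ζ - z = ((zeros ψ (E ∪ Set.range h) : ℝ) - z * s ^ D) / s ^ D := by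
      rw [hζ]
      field_simp
    rw [h1, abs_div, abs_of_pos hsD, div_le_iff₀ hsD, hC1]
    calc _ ≤ C₁ * s ^ D / s := hZ
      _ = C₁ / s * s ^ D := by ring
  refine ⟨?_, ?_⟩
  · have h2 : XX w D r ν i E f Δ ψ = fun u => ∑ κ ∈ range (ν + 1), (cc w D r ν i κ : ℝ) *
        (if eval₂ ψ u Δ = 0 then 0 else tau w D r E f ψ u ^ κ) := funext hXX
    have h3 : ∑ l ∈ range (ν + 1), (TT w D r ν i l : ℝ) * ζ ^ l =
        ∑ κ ∈ range (ν + 1), (cc w D r ν i κ : ℝ) * ∑ l ∈ range (ν + 1), (mid (vv w D r) κ l : ℝ) * ζ ^ l := by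
      simp only [mul_sum]
      rw [sum_comm]
      refine sum_congr rfl fun l _ => ?_
      unfold TT
      push_cast
      rw [sum_mul]
      refine sum_congr rfl fun κ _ => ?_
      ring
    have h5 : |av (XX w D r ν i E f Δ ψ) - ∑ l ∈ range (ν + 1), (TT w D r ν i l : ℝ) * ζ ^ l| ≤ c₁ * K / s := by
      rw [h2, av_sum, h3, ← sum_sub_distrib, mul_div_assoc, hc₁, sum_mul]
      refine (abs_sum_le_sum_abs _ _).trans (sum_le_sum fun κ hκ => ?_)
      rw [mem_range] at hκ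
      rw [av_smul, ← mul_sub, abs_mul, abs_of_nonneg (Nat.cast_nonneg _ : (0 : ℝ) ≤ _)]
      refine mul_le_mul_of_nonneg_left ?_ (Nat.cast_nonneg _)
      have h4 := (hmom κ (by omega)).1
      rw [hζ]
      exact h4
    have h6 : |∑ l ∈ range (ν + 1), (TT w D r ν i l : ℝ) * ζ ^ l - ∑ l ∈ range (ν + 1), (TT w D r ν i l : ℝ) * (z : ℝ) ^ l| ≤
        c₃ * Z₁ / s := by
      rw [← sum_sub_distrib, mul_div_assoc, hc₃, sum_mul]
      refine (abs_sum_le_sum_abs _ _).trans (sum_le_sum fun l hl => ?_)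
      rw [mem_range] at hl
      rw [← mul_sub, abs_mul, abs_of_nonneg (Nat.cast_nonneg _ : (0 : ℝ) ≤ _)]
      refine mul_le_mul_of_nonneg_left ?_ (Nat.cast_nonneg _)
      refine (pow_diff ζ z B hB1 hζB hzB l).trans ?_
      rw [hZ₁, mul_div_assoc]
      refine mul_le_mul ?_ hζz (abs_nonneg _) (by positivity)
      have h7 : (l : ℝ) ≤ ν := by exact_mod_cast (by omega : l ≤ ν)
      exact mul_le_mul h7 (pow_le_pow_right₀ hB1 (by omega)) (by positivity) (Nat.cast_nonneg _)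
    rw [← hs]
    have h7 : 0 ≤ ((ν + 1 : ℕ) : ℝ) * (c₂ * K) / s := by positivity
    have h8 := abs_add_le (av (XX w D r ν i E f Δ ψ) - ∑ l ∈ range (ν + 1), (TT w D r ν i l : ℝ) * ζ ^ l)
      (∑ l ∈ range (ν + 1), (TT w D r ν i l : ℝ) * ζ ^ l - ∑ l ∈ range (ν + 1), (TT w D r ν i l : ℝ) * (z : ℝ) ^ l)
    rw [sub_add_sub_cancel] at h8
    refine h8.trans ?_
    rw [add_div, add_div]
    linarith
  · have h1 : ∀ u : (Σ a, ι a) → F, XX w D r ν i E f Δ ψ u ^ 2 ≤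
        ((ν + 1 : ℕ) : ℝ) * ∑ κ ∈ range (ν + 1), (cc w D r ν i κ : ℝ) ^ 2 * (tau w D r E f ψ u ^ κ) ^ 2 := by
      intro u
      rw [hXX]
      have h2 := sq_sum_le_card_mul_sum_sq (s := range (ν + 1))
        (f := fun κ => (cc w D r ν i κ : ℝ) * (if eval₂ ψ u Δ = 0 then 0 else tau w D r E f ψ u ^ κ))
      rw [card_range] at h2
      refine h2.trans (mul_le_mul_of_nonneg_left (sum_le_sum fun κ _ => ?_) (Nat.cast_nonneg _))
      rw [mul_pow]
      refine mul_le_mul_of_nonneg_left ?_ (sq_nonneg _)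
      split_ifs
      · rw [zero_pow two_ne_zero]
        exact sq_nonneg _
      · exact le_rfl
    refine (av_mono _ _ h1).trans ?_
    rw [av_smul, av_sum]
    have h2 : ((ν + 1 : ℕ) : ℝ) * ∑ κ ∈ range (ν + 1), av (fun u => (cc w D r ν i κ : ℝ) ^ 2 * (tau w D r E f ψ u ^ κ) ^ 2) ≤
        ((ν + 1 : ℕ) : ℝ) * (c₂ * K) := by
      refine mul_le_mul_of_nonneg_left ?_ (Nat.cast_nonneg _)
      rw [hc₂, sum_mul]
      refine sum_le_sum fun κ hκ => ?_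
      rw [mem_range] at hκ
      rw [av_smul]
      exact mul_le_mul_of_nonneg_left (hmom κ (by omega)).2 (sq_nonneg _)
    have h3 : 0 ≤ c₁ * K + c₃ * Z₁ := by positivity
    linarith

end Q282NA
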